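import Pool.Agent.H62.UN.Targets

set_option autoImplicit false

namespace Pool.Agent.H1.UNT

open Polynomial Pool.Agent.H17.UN Pool.Agent.H62.UN

theorem pf_KSF : T_KSF := by
  classical
  intro k F _ _ _ s hs
  have h1 : ∀ c : ks k s, ∃ a b : k[X], b ≠ 0 ∧ aeval s b ≠ 0 ∧
      (c : F) = aeval s a / aeval s b := by
    intro c
    obtain ⟨a, b, hab⟩ := (IntermediateField.mem_adjoin_simple_iff k (c : F)).mp c.2
    by_cases hb : aeval s b = 0
    · refine ⟨0, 1, one_ne_zero, ?_, ?_⟩
      · rw [map_one]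
        exact one_ne_zero
      · rw [hab, hb, div_zero, map_zero, zero_div]
    · exact ⟨a, b, fun h => hb (by rw [h, map_zero]), hb, hab⟩
  refine ⟨h1, fun g => ?_⟩
  choose a b hb0 hb hab using fun i : ℕ => h1 (g.coeff i)
  have hB : aeval s (∏ i ∈ Finset.range (g.natDegree + 1), b i) ≠ 0 := by
    rw [map_prod]
    exact Finset.prod_ne_zero_iff.mpr fun i _ => hb i
  refine ⟨∏ i ∈ Finset.range (g.natDegree + 1), b i,
    ∑ i ∈ Finset.range (g.natDegree + 1),
      monomial i (a i * ∏ j ∈ (Finset.range (g.natDegree + 1)).erase i, b j),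
    fun h => hB (by rw [h, map_zero]), hB, ?_, fun τ => ?_⟩
  · refine natDegree_sum_le_of_forall_le _ _ fun i hi => ?_
    exact (natDegree_monomial_le _).trans (Nat.lt_succ_iff.mp (Finset.mem_range.mp hi))
  · rw [aeval_eq_sum_range (p := g), Finset.mul_sum, eval₂_finsetSum]
    refine Finset.sum_congr rfl fun i hi => ?_
    have h2 : (g.coeff i) • τ ^ i = (g.coeff i : F) * τ ^ i := rfl
    rw [eval₂_monomial, h2, hab i, ← Finset.mul_prod_erase _ _ hi]
    have h3 : (aeval s : k[X] →ₐ[k] F).toRingHom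
        (a i * ∏ j ∈ (Finset.range (g.natDegree + 1)).erase i, b j) =
        aeval s (a i) * aeval s (∏ j ∈ (Finset.range (g.natDegree + 1)).erase i, b j) :=
      map_mul (aeval s) _ _
    rw [h3, map_mul]
    have h4 := hb i
    field_simp

end Pool.Agent.H1.UNT
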