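import Pool.Agent.H62.UN.Targets

set_option autoImplicit false

namespace Pool.Agent.H1.UNT

open Polynomial Pool.Agent.H17.UN Pool.Agent.H62.UN

theorem pf_LVS : T_LVS := by
  intro hNFI hDEG k E _ _ _ _ P Q x y z hC a l hl o ho hnn hx
  obtain ⟨e, hex, hey, hez⟩ := hNFI k E P Q x y z hC
  obtain ⟨f, hf⟩ : ∃ f : CR P Q →ₐ[k] E, f = (cr k x y z).val.comp (e : CR P Q →ₐ[k] cr k x y z) :=
    ⟨_, rfl⟩
  have hfv : ∀ b, f b = (e b : E) := fun b => by rw [hf]; rfl
  have hfi : Function.Injective f := by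
    intro b c hbc
    rw [hfv, hfv] at hbc
    exact e.injective (Subtype.ext hbc)
  have hfm : ∀ b, f b ∈ cr k x y z := fun b => by rw [hfv]; exact (e b).2
  have hfx : f (xC P Q) = x := by rw [hfv, hex]
  have hfy : f (yC P Q) = y := by rw [hfv, hey]
  have hfz : f (zC P Q) = z := by rw [hfv, hez]
  have hfl : f (aeval (zC P Q) l) = aeval z l := by
    rw [← Polynomial.aeval_algHom_apply, hfz]
  -- `l ≠ 0`
  have hl0 : l ≠ 0 := by
    intro h0
    rw [h0] at hl
    have h1 : (0 : k[X]) = C (P.eval a) + C (Q.eval a) * X ^ 2 := by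
      rw [← hl]
      ring
    have hP : P.eval a = 0 := by
      have h2 := congrArg (fun p => Polynomial.eval 0 p) h1
      simpa using h2.symm
    have hQ : Q.eval a = 0 := by
      have h2 := congrArg (fun p => Polynomial.eval 1 p) h1
      rw [hP] at h2
      simpa using h2.symm
    obtain ⟨u, v, huv⟩ := hC.sep
    have h3 := congrArg (fun p => Polynomial.eval a p) huv
    simp [hP, hQ] at h3
  have hneg : ∀ l : k[X], l ≠ 0 → -l ≠ l := by
    intro l hl0 h
    have h1 : (2 : k[X]) * l = 0 := by linear_combination -h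
    rcases mul_eq_zero.mp h1 with h2 | h2
    · exact two_ne_zero h2
    · exact hl0 h2
  obtain ⟨⟨c, hc⟩, φ, -, hφz, hφy, -⟩ := hDEG k P Q a l hl
  obtain ⟨-, ψ, -, hψz, hψy, -⟩ := hDEG k P Q a (-l) (by rw [neg_sq, hl])
  have hA : y - aeval z l ≠ 0 := by
    intro h
    have h1 : yC P Q = aeval (zC P Q) l := by
      apply hfi
      rw [hfy, hfl]
      exact sub_eq_zero.mp h
    have h2 := congrArg ψ h1
    rw [hψy, ← Polynomial.aeval_algHom_apply, hψz, aeval_X_left_apply] at h2
    exact hneg l hl0 h2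
  have hB : y + aeval z l ≠ 0 := by
    intro h
    have h1 : yC P Q = -aeval (zC P Q) l := by
      apply hfi
      rw [hfy, map_neg, hfl]
      exact eq_neg_of_add_eq_zero_left h
    have h2 := congrArg φ h1
    rw [hφy, map_neg, ← Polynomial.aeval_algHom_apply, hφz, aeval_X_left_apply] at h2
    exact hneg l hl0 h2.symm
  have hprod : (y - aeval z l) * (y + aeval z l) = (x - algebraMap k E a) * f c := by
    have h1 := congrArg f hc
    rw [map_sub, map_pow, map_pow, map_mul, map_sub, hfy, hfl, hfx, AlgHom.commutes] at h1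
    rw [← h1]
    ring
  have hxc : (x - algebraMap k E a) * f c ≠ 0 := by
    rw [← hprod]
    exact mul_ne_zero hA hB
  have h1 := ho.mul _ _ hA hB
  rw [hprod, ho.mul _ _ (left_ne_zero_of_mul hxc) (right_ne_zero_of_mul hxc)] at h1
  have hyl : aeval z l ∈ cr k x y z := by
    rw [← hfl]
    exact hfm _
  have hym : y ∈ cr k x y z := Algebra.subset_adjoin (by simp)
  have h2 := hnn _ (hfm c)
  have h3 := hnn _ ((cr k x y z).sub_mem hym hyl)
  have h4 := hnn _ ((cr k x y z).add_mem hym hyl)
  omega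

end Pool.Agent.H1.UNT
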